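import Pool.Agent.Dini.Main
import Pool.Agent.Dini.Nuclear
import Pool.Agent.Dini.Separable
import Pool.Agent.Dini.Topology

/-!
# Every Dini space is the primitive ideal space of a separable nuclear C*-algebra

This answers Q1 of MP_6e5c74_an (Kirchberg and Rordam) affirmatively.

The definitions used in the statement are in `Pool/Agent/Dini/Defs.lean`:

* `Dini.Prim A`: the set of kernels of irreducible *-representations of the C*-algebra `A` on
  Hilbert spaces, with the hull-kernel topology;
* `Dini.IsNuclear A`: the completely positive approximation property.

Outline of the proof.

* Topology (`TopChain`, `TopTree`, `TopFilter`, `Topology`): every Dini space `X` has a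
  dynamical presentation, that is a compact metrizable space `Q` with a closed subset `D`,
  countably many continuous self maps of `Q` which preserve `D`, and a map from `Q \ D` to `X`
  such that the open subsets of `X` are exactly the open subsets of `Q \ D` which contain
  `q` together with every image of `q` (`System`).
* Algebra (`Hilb`, `Path`, `Alg`): on the Hilbert space spanned by the finite and the backward
  infinite paths of the system (every map is used with infinitely many labels) take the
  C*-algebra generated by the operators `T_a f T_b^*`, where `T_a` appends the word `a` and `f` is
  a continuous function of the end point which vanishes on `D`.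
* Approximation (`Approx`, `Psi`, `Conv`, `NucAbstract`, `Nuclear`): explicit completely positive
  contractions through matrix algebras give nuclearity, and show that an element whose matrix
  coefficients vanish off an invariant open set `V` lies in the ideal generated by `C_0(V)`.
* Ideals (`Ideal`): compression by a fresh label of the identity map shows that every closed
  ideal is determined by an invariant open set.
* Irreducible representations (`Backward`, `Rep`, `Irr`, `Main`): orbits of backward paths.
-/

namespace Pool.Agent.Results.MP_6e5c74_an.DiniPrim

universe u

/-- Every Dini space (second countable, locally compact, `T0`, sober) is homeomorphic to the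
primitive ideal space of a separable nuclear C*-algebra. -/
theorem result (X : Type u) [TopologicalSpace X] [SecondCountableTopology X]
    [LocallyCompactSpace X] [T0Space X] [QuasiSober X] :
    ∃ (A : Type) (_ : NonUnitalCStarAlgebra A) (_ : PartialOrder A) (_ : StarOrderedRing A),
      TopologicalSpace.SeparableSpace A ∧ Dini.IsNuclear A ∧ Nonempty (X ≃ₜ Dini.Prim A) := by
  obtain ⟨pr⟩ := Dini.exists_presentation X
  refine ⟨Dini.alg pr.data, inferInstance, CStarAlgebra.spectralOrder _,
    CStarAlgebra.spectralOrderedRing _, Dini.alg_separable pr.data, ?_, Dini.exists_homeo pr⟩
  letI : PartialOrder (Dini.alg pr.data) := CStarAlgebra.spectralOrder _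
  haveI : StarOrderedRing (Dini.alg pr.data) := CStarAlgebra.spectralOrderedRing _
  exact Dini.alg_isNuclear pr.data

end Pool.Agent.Results.MP_6e5c74_an.DiniPrim
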